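import Mathlib
import Pool.Agent.Lib_helper82.CN.Defs

/-!
# CN, block NJ: every fundamental discriminant is the discriminant of a quadratic field
-/

set_option autoImplicit false

namespace Pool.Agent.CN

open NumberField IsDedekindDomain Polynomial

/-- squarefree denominators -/
theorem NJ_int {m : ℤ} (hm : Squarefree m) (w : ℚ) (e : ℤ) (h : w ^ 2 * m = e) :
    ∃ k : ℤ, w = k := by
  have hd : (w.den : ℤ) * w.den ∣ m := by
    have h1 : w.num ^ 2 * m = e * ((w.den : ℤ) * w.den) := by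
      have h2 : (w.num : ℚ) = w * w.den := (Rat.mul_den_eq_num w).symm
      have h3 : ((w.num ^ 2 * m : ℤ) : ℚ) = ((e * ((w.den : ℤ) * w.den) : ℤ) : ℚ) := by
        push_cast
        rw [h2, ← h]
        ring
      exact_mod_cast h3
    have hc0 : IsCoprime (w.den : ℤ) w.num := by
      rw [Int.isCoprime_iff_nat_coprime]
      simpa using w.reduced.symm
    have hc : IsCoprime ((w.den : ℤ) * w.den) (w.num ^ 2) :=
      (IsCoprime.mul_left hc0 hc0).pow_right
    exact hc.dvd_of_dvd_mul_left ⟨e, by rw [h1]; ring⟩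
  have hu := hm _ hd
  have h1 : w.den = 1 := by
    rcases Int.isUnit_iff.1 hu with h | h
    · exact_mod_cast h
    · have := w.den_pos
      omega
  exact ⟨w.num, (Rat.coe_int_num_of_den_eq_one h1).symm⟩

theorem NJ_nsq {D : ℤ} (hD : Fund D) (w : ℚ) : w ^ 2 ≠ (D : ℚ) := by
  intro h
  obtain ⟨c, rfl⟩ := NJ_int squarefree_one w D (by push_cast; rw [mul_one]; exact h)
  have hc : c ^ 2 = D := by exact_mod_cast h
  obtain ⟨h1, h2⟩ := hD
  rcases h2 with ⟨h3, h4⟩ | ⟨m, h3, h4, h5⟩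
  · have h6 := h4 c ⟨1, by rw [← hc]; ring⟩
    rcases Int.isUnit_iff.1 h6 with h | h
    · apply h1; rw [← hc, h]; norm_num
    · apply h1; rw [← hc, h]; norm_num
  · have h6 : c % 2 = 0 := by
      by_contra h7
      have h8 : c % 2 = 1 := by omega
      have h9 : c ^ 2 % 2 = 1 := by rw [pow_two, Int.mul_emod, h8]; norm_num
      omega
    obtain ⟨d, rfl⟩ : ∃ d, c = 2 * d := ⟨c / 2, by omega⟩
    have h7 : d ^ 2 = m := by nlinarith
    have h8 := h4 d ⟨1, by rw [← h7]; ring⟩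
    rcases Int.isUnit_iff.1 h8 with h | h
    · rw [h] at h7; norm_num at h7; omega
    · rw [h] at h7; norm_num at h7; omega

/-- a field given by a square root `s` of `D` and the decomposition `a + b s` -/
structure NJ_K (K : Type) [Field K] [NumberField K] (D : ℤ) (s : K) : Prop where
  sq : s ^ 2 = (D : K)
  ex : ∀ x : K, ∃ a b : ℚ, x = (a : K) + (b : K) * s

theorem NJ_uq {K : Type} [Field K] [NumberField K] {D : ℤ} (hD : Fund D) {s : K}
    (h : NJ_K K D s) (a b : ℚ) (h0 : (a : K) + (b : K) * s = 0) : a = 0 ∧ b = 0 := by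
  have hb : b = 0 := by
    by_contra hb
    have hb' : (b : K) ≠ 0 := by exact_mod_cast hb
    have h1 : s = ((-a / b : ℚ) : K) := by
      push_cast
      field_simp
      linear_combination h0
    have h2 := h.sq
    rw [h1] at h2
    have h3 : (-a / b : ℚ) ^ 2 = (D : ℚ) := by exact_mod_cast h2
    exact NJ_nsq hD _ h3
  refine ⟨?_, hb⟩
  rw [hb] at h0
  simpa using h0

/-- the basis `1, s` -/
noncomputable def NJ_bas {K : Type} [Field K] [NumberField K] {D : ℤ} (hD : Fund D) {s : K}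
    (h : NJ_K K D s) : Module.Basis (Fin 2) ℚ K :=
  Module.Basis.mk (v := ![1, s])
    (by
      rw [LinearIndependent.pair_iff]
      intro a b hab
      apply NJ_uq hD h a b
      rw [← hab, Rat.smul_def, Rat.smul_def, mul_one])
    (by
      intro x _
      obtain ⟨a, b, rfl⟩ := h.ex x
      rw [Matrix.range_cons, Matrix.range_cons, Matrix.range_empty, Set.union_empty,
        Set.singleton_union, Submodule.mem_span_pair]
      exact ⟨a, b, by rw [Rat.smul_def, Rat.smul_def, mul_one]⟩)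

theorem NJ_bas0 {K : Type} [Field K] [NumberField K] {D : ℤ} (hD : Fund D) {s : K}
    (h : NJ_K K D s) : NJ_bas hD h 0 = 1 := by
  simp [NJ_bas]

theorem NJ_bas1 {K : Type} [Field K] [NumberField K] {D : ℤ} (hD : Fund D) {s : K}
    (h : NJ_K K D s) : NJ_bas hD h 1 = s := by
  simp [NJ_bas]

theorem NJ_repr {K : Type} [Field K] [NumberField K] {D : ℤ} (hD : Fund D) {s : K}
    (h : NJ_K K D s) (a b : ℚ) :
    (NJ_bas hD h).repr ((a : K) + (b : K) * s) = Finsupp.single 0 a + Finsupp.single 1 b := by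
  have e : (a : K) + (b : K) * s = a • NJ_bas hD h 0 + b • NJ_bas hD h 1 := by
    rw [NJ_bas0, NJ_bas1, Rat.smul_def, Rat.smul_def, mul_one]
  rw [e, map_add, map_smul, map_smul, Module.Basis.repr_self, Module.Basis.repr_self,
    Finsupp.smul_single, Finsupp.smul_single, smul_eq_mul, smul_eq_mul, mul_one, mul_one]

theorem NJ_mat {K : Type} [Field K] [NumberField K] {D : ℤ} (hD : Fund D) {s : K}
    (h : NJ_K K D s) (a b : ℚ) :
    Algebra.leftMulMatrix (NJ_bas hD h) ((a : K) + (b : K) * s) =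
      !![a, b * D; b, a] := by
  have e0 : ((a : K) + (b : K) * s) * NJ_bas hD h 0 = (a : K) + (b : K) * s := by
    rw [NJ_bas0, mul_one]
  have e1 : ((a : K) + (b : K) * s) * NJ_bas hD h 1 = ((b * D : ℚ) : K) + (a : K) * s := by
    rw [NJ_bas1]
    push_cast
    linear_combination (b : K) * h.sq
  ext i j
  rw [Algebra.leftMulMatrix_eq_repr_mul]
  fin_cases j
  · show (NJ_bas hD h).repr (((a : K) + (b : K) * s) * NJ_bas hD h 0) i = _
    rw [e0, NJ_repr]
    fin_cases i <;> simp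
  · show (NJ_bas hD h).repr (((a : K) + (b : K) * s) * NJ_bas hD h 1) i = _
    rw [e1, NJ_repr]
    fin_cases i <;> simp

theorem NJ_trace {K : Type} [Field K] [NumberField K] {D : ℤ} (hD : Fund D) {s : K}
    (h : NJ_K K D s) (a b : ℚ) :
    Algebra.trace ℚ K ((a : K) + (b : K) * s) = 2 * a := by
  rw [Algebra.trace_eq_matrix_trace (NJ_bas hD h), NJ_mat, Matrix.trace_fin_two]
  simp
  ring

theorem NJ_norm {K : Type} [Field K] [NumberField K] {D : ℤ} (hD : Fund D) {s : K}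
    (h : NJ_K K D s) (a b : ℚ) :
    Algebra.norm ℚ ((a : K) + (b : K) * s) = a ^ 2 - b ^ 2 * D := by
  rw [Algebra.norm_eq_matrix_det (NJ_bas hD h), NJ_mat, Matrix.det_fin_two]
  simp
  ring

/-- the integral elements -/
theorem NJ_ex {K : Type} [Field K] [NumberField K] {D : ℤ} (hD : Fund D) {s : K}
    (h : NJ_K K D s) (x : K) (hx : IsIntegral ℤ x) :
    ∃ u v : ℤ, x = (u : K) + (v : K) * (((D : K) + s) / 2) := by
  obtain ⟨a, b, rfl⟩ := h.ex x
  obtain ⟨T, hT⟩ := IsIntegrallyClosed.isIntegral_iff.1 (Algebra.isIntegral_trace (L := ℚ) hx)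
  obtain ⟨N, hN⟩ := IsIntegrallyClosed.isIntegral_iff.1 (Algebra.isIntegral_norm ℚ hx)
  rw [NJ_trace hD h] at hT
  rw [NJ_norm hD h] at hN
  have hT' : (T : ℚ) = 2 * a := by simpa using hT
  have hN' : (N : ℚ) = a ^ 2 - b ^ 2 * D := by simpa using hN
  have he : (2 * b) ^ 2 * (D : ℚ) = ((T ^ 2 - 4 * N : ℤ) : ℚ) := by
    push_cast
    rw [hT', hN']
    ring
  -- `2 b` is an integer
  obtain ⟨v, hv, hpar⟩ : ∃ v : ℤ, 2 * b = v ∧ (T - v * D) % 2 = 0 := by
    rcases hD.2 with ⟨h3, h4⟩ | ⟨m, h3, h4, h5⟩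
    · obtain ⟨v, hv⟩ := NJ_int h4 (2 * b) _ he
      refine ⟨v, hv, ?_⟩
      rw [hv] at he
      have he' : v ^ 2 * D = T ^ 2 - 4 * N := by exact_mod_cast he
      have h6 : D % 2 = 1 := by omega
      rcases Int.even_or_odd' v with ⟨k, hk | hk⟩ <;> rcases Int.even_or_odd' T with ⟨l, hl | hl⟩ <;>
        rcases Int.even_or_odd' D with ⟨c, hc | hc⟩ <;> subst hk hl hc <;> ring_nf at he' h6 ⊢ <;>
        omega
    · have he2 : (4 * b) ^ 2 * (m : ℚ) = ((T ^ 2 - 4 * N : ℤ) : ℚ) := by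
        rw [← he, h3]
        push_cast
        ring
      obtain ⟨w, hw⟩ := NJ_int h4 (4 * b) _ he2
      rw [hw] at he2
      have he3 : w ^ 2 * m = T ^ 2 - 4 * N := by exact_mod_cast he2
      rcases Int.even_or_odd' w with ⟨k, hk | hk⟩
      · refine ⟨k, ?_, ?_⟩
        · have : (w : ℚ) = 2 * k := by rw [hk]; push_cast; ring
          linarith
        · have h6 : T % 2 = 0 := by
            by_contra h7
            obtain ⟨l, hl⟩ : ∃ l, T = 2 * l + 1 := ⟨T / 2, by omega⟩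
            rw [hk, hl] at he3
            ring_nf at he3
            omega
          rw [h3, Int.sub_emod, h6]
          have : k * (4 * m) % 2 = 0 := by
            rw [show k * (4 * m) = 2 * (2 * k * m) by ring]
            simp
          rw [this]
          norm_num
      · exfalso
        have h6 : T ^ 2 % 4 = m % 4 := by
          have h7 : w ^ 2 * m = 4 * (k ^ 2 * m + k * m) + m := by rw [hk]; ring
          omega
        rcases Int.even_or_odd' T with ⟨l, hl | hl⟩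
        · have h7 : T ^ 2 = 4 * l ^ 2 := by rw [hl]; ring
          omega
        · have h7 : T ^ 2 = 4 * (l ^ 2 + l) + 1 := by rw [hl]; ring
          omega
  obtain ⟨u, hu⟩ : ∃ u, T - v * D = 2 * u := ⟨(T - v * D) / 2, by omega⟩
  refine ⟨u, v, ?_⟩
  have hb : b = v / 2 := by linarith
  have ha : a = u + v * D / 2 := by
    have h7 : ((T - v * D : ℤ) : ℚ) = ((2 * u : ℤ) : ℚ) := by rw [hu]
    push_cast at h7
    linarith
  rw [ha, hb]
  push_cast
  ring

/-- the integral generator -/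
theorem NJ_om {K : Type} [Field K] [NumberField K] {D : ℤ} (hD : Fund D) {s : K}
    (h : NJ_K K D s) : ∃ (ω : 𝓞 K) (n : ℤ), 4 * n = D ^ 2 - D ∧ (ω : K) = ((D : K) + s) / 2 ∧
      ω ^ 2 = (D : 𝓞 K) * ω - (n : 𝓞 K) := by
  obtain ⟨n, hn⟩ : ∃ n : ℤ, 4 * n = D ^ 2 - D := by
    rcases hD.2 with ⟨h3, h4⟩ | ⟨m, h3, h4, h5⟩
    · obtain ⟨c, hc⟩ : ∃ c, D = 4 * c + 1 := ⟨D / 4, by omega⟩
      exact ⟨4 * c ^ 2 + c, by rw [hc]; ring⟩
    · exact ⟨4 * m ^ 2 - m, by rw [h3]; ring⟩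
  have hn' : (4 : K) * (n : K) = (D : K) ^ 2 - (D : K) := by exact_mod_cast congrArg (Int.cast : ℤ → K) hn
  have h1 : (((D : K) + s) / 2) ^ 2 = (D : K) * (((D : K) + s) / 2) - (n : K) := by
    have h2 := h.sq
    linear_combination (1 / 4) * h2 + (1 / 4) * hn'
  have hint : IsIntegral ℤ (((D : K) + s) / 2) := by
    refine ⟨X ^ 2 - C D * X + C n, ?_, ?_⟩
    · have : (X ^ 2 - C D * X + C n : ℤ[X]) = X ^ 2 + (- C D * X + C n) := by ring
      rw [this]
      apply monic_X_pow_add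
      refine lt_of_le_of_lt (b := 1) ?_ (by norm_num)
      rw [← C_neg]
      exact degree_linear_le
    · simp only [eval₂_add, eval₂_sub, eval₂_mul, eval₂_pow, eval₂_X, eval₂_C]
      rw [h1]
      simp
  obtain ⟨ω, hω⟩ : ∃ ω : 𝓞 K, (ω : K) = ((D : K) + s) / 2 := ⟨⟨_, hint⟩, rfl⟩
  refine ⟨ω, n, hn, hω, ?_⟩
  apply RingOfIntegers.ext
  rw [← hω] at h1
  simpa using h1

/-- the discriminant of a field with an integral basis `1, ω` -/
theorem NJ_disc {K : Type} [Field K] [NumberField K] {ω : 𝓞 K} {t n : ℤ}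
    (sq : ω ^ 2 = (t : 𝓞 K) * ω - (n : 𝓞 K))
    (ex : ∀ x : 𝓞 K, ∃ a b : ℤ, x = (a : 𝓞 K) + (b : 𝓞 K) * ω)
    (uq : ∀ a b : ℤ, (a : 𝓞 K) + (b : 𝓞 K) * ω = 0 → a = 0 ∧ b = 0) :
    discr K = t ^ 2 - 4 * n := by
  have hli : LinearIndependent ℤ ![(1 : 𝓞 K), ω] := by
    rw [LinearIndependent.pair_iff]
    intro a b hab
    apply uq a b
    rw [← hab, zsmul_eq_mul, zsmul_eq_mul, mul_one]
  have hsp : ⊤ ≤ Submodule.span ℤ (Set.range ![(1 : 𝓞 K), ω]) := by
    intro x _
    obtain ⟨a, b, rfl⟩ := ex x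
    rw [Matrix.range_cons, Matrix.range_cons, Matrix.range_empty, Set.union_empty,
      Set.singleton_union, Submodule.mem_span_pair]
    exact ⟨a, b, by rw [zsmul_eq_mul, zsmul_eq_mul, mul_one]⟩
  set bs : Module.Basis (Fin 2) ℤ (𝓞 K) := Module.Basis.mk hli hsp with hbs
  have b0 : bs 0 = 1 := by simp [hbs]
  have b1 : bs 1 = ω := by simp [hbs]
  have hrepr : ∀ a b : ℤ, bs.repr ((a : 𝓞 K) + (b : 𝓞 K) * ω) =
      Finsupp.single 0 a + Finsupp.single 1 b := by
    intro a b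
    have e : (a : 𝓞 K) + (b : 𝓞 K) * ω = a • bs 0 + b • bs 1 := by
      rw [b0, b1, zsmul_eq_mul, zsmul_eq_mul, mul_one]
    rw [e, map_add, map_smul, map_smul, Module.Basis.repr_self, Module.Basis.repr_self,
      Finsupp.smul_single, Finsupp.smul_single, smul_eq_mul, smul_eq_mul, mul_one, mul_one]
  have htr : ∀ a b : ℤ, Algebra.trace ℤ (𝓞 K) ((a : 𝓞 K) + (b : 𝓞 K) * ω) = 2 * a + b * t := by
    intro a b
    have e0 : ((a : 𝓞 K) + (b : 𝓞 K) * ω) * bs 0 = (a : 𝓞 K) + (b : 𝓞 K) * ω := by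
      rw [b0, mul_one]
    have e1 : ((a : 𝓞 K) + (b : 𝓞 K) * ω) * bs 1 =
        ((-(b * n) : ℤ) : 𝓞 K) + ((a + b * t : ℤ) : 𝓞 K) * ω := by
      rw [b1]
      push_cast
      linear_combination (b : 𝓞 K) * sq
    rw [Algebra.trace_eq_matrix_trace bs, Matrix.trace_fin_two, Algebra.leftMulMatrix_eq_repr_mul,
      Algebra.leftMulMatrix_eq_repr_mul, e0, e1, hrepr, hrepr]
    simp
    ring
  rw [← discr_eq_discr K bs, Algebra.discr_def, Matrix.det_fin_two]
  simp only [Algebra.traceMatrix_apply, Algebra.traceForm_apply]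
  have f00 : bs 0 * bs 0 = ((1 : ℤ) : 𝓞 K) + ((0 : ℤ) : 𝓞 K) * ω := by rw [b0]; simp
  have f01 : bs 0 * bs 1 = ((0 : ℤ) : 𝓞 K) + ((1 : ℤ) : 𝓞 K) * ω := by rw [b0, b1]; simp
  have f10 : bs 1 * bs 0 = ((0 : ℤ) : 𝓞 K) + ((1 : ℤ) : 𝓞 K) * ω := by rw [b0, b1]; simp
  have f11 : bs 1 * bs 1 = ((-n : ℤ) : 𝓞 K) + ((t : ℤ) : 𝓞 K) * ω := by
    rw [b1]
    push_cast
    linear_combination sq
  rw [f00, f01, f10, f11, htr, htr, htr]
  ring

theorem NJ_disc' {K : Type} [Field K] [NumberField K] {D : ℤ} (hD : Fund D) {s : K}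
    (h : NJ_K K D s) : discr K = D := by
  obtain ⟨ω, n, hn, hω, hsq⟩ := NJ_om hD h
  rw [NJ_disc hsq ?_ ?_]
  · rw [hn]; ring
  · intro x
    obtain ⟨u, v, huv⟩ := NJ_ex hD h (x : K) (RingOfIntegers.isIntegral_coe x)
    refine ⟨u, v, ?_⟩
    apply RingOfIntegers.ext
    rw [huv, ← hω]
    simp
  · intro a b hab
    have h1 : (((a : 𝓞 K) + (b : 𝓞 K) * ω : 𝓞 K) : K) = 0 := by rw [hab]; simp
    have h2 : (a : K) + (b : K) * (((D : K) + s) / 2) = 0 := by
      rw [← hω, ← h1]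
      simp
    have h3 := NJ_uq hD h ((a : ℚ) + (b : ℚ) * D / 2) ((b : ℚ) / 2) (by
      push_cast
      linear_combination h2)
    have h4 : (b : ℚ) = 0 := by linarith [h3.2]
    have h5 : (a : ℚ) = 0 := by
      have := h3.1
      rw [h4] at this
      simpa using this
    exact ⟨by exact_mod_cast h5, by exact_mod_cast h4⟩

/-- block NJ: every fundamental discriminant has a field -/
theorem field_of_fund {D : ℤ} (hD : Fund D) : ∃ (K : Type) (_ : Field K) (_ : NumberField K),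
    Module.finrank ℚ K = 2 ∧ discr K = D := by
  have hirr : Irreducible (X ^ 2 - C (D : ℚ)) :=
    X_pow_sub_C_irreducible_of_prime Nat.prime_two (fun w => NJ_nsq hD w)
  have : Fact (Irreducible (X ^ 2 - C (D : ℚ))) := ⟨hirr⟩
  have hne : (X ^ 2 - C (D : ℚ)) ≠ 0 := hirr.ne_zero
  have hdeg : (X ^ 2 - C (D : ℚ)).natDegree = 2 := natDegree_X_pow_sub_C
  let pb := AdjoinRoot.powerBasis hne
  have : FiniteDimensional ℚ (AdjoinRoot (X ^ 2 - C (D : ℚ))) := pb.finite
  have : CharZero (AdjoinRoot (X ^ 2 - C (D : ℚ))) :=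
    charZero_of_injective_algebraMap (algebraMap ℚ (AdjoinRoot (X ^ 2 - C (D : ℚ)))).injective
  have : NumberField (AdjoinRoot (X ^ 2 - C (D : ℚ))) := 
    { to_charZero := inferInstance, to_finiteDimensional := inferInstance }
  refine ⟨AdjoinRoot (X ^ 2 - C (D : ℚ)), inferInstance, inferInstance, ?_, ?_⟩
  · rw [pb.finrank]
    show (X ^ 2 - C (D : ℚ)).natDegree = 2
    exact hdeg
  · have hK : NJ_K (AdjoinRoot (X ^ 2 - C (D : ℚ))) D (AdjoinRoot.root _) := by
      constructor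
      · have h := AdjoinRoot.eval₂_root (X ^ 2 - C (D : ℚ))
        simp only [eval₂_sub, eval₂_pow, eval₂_X, eval₂_C] at h
        have h2 := sub_eq_zero.1 h
        rw [h2]
        simp
      · intro x
        obtain ⟨g, rfl⟩ := AdjoinRoot.mk_surjective x
        have hmon : (X ^ 2 - C (D : ℚ)).Monic := monic_X_pow_sub_C _ (by norm_num)
        have h1 : AdjoinRoot.mk (X ^ 2 - C (D : ℚ)) g =
            AdjoinRoot.mk (X ^ 2 - C (D : ℚ)) (g %ₘ (X ^ 2 - C (D : ℚ))) := by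
          rw [AdjoinRoot.mk_eq_mk]
          refine ⟨g /ₘ (X ^ 2 - C (D : ℚ)), ?_⟩
          rw [modByMonic_eq_sub_mul_div]
          ring
        have h2 : (g %ₘ (X ^ 2 - C (D : ℚ))).degree ≤ 1 := by
          have h3 := natDegree_modByMonic_lt g hmon (by
            intro h4
            rw [h4, natDegree_one] at hdeg
            omega)
          rw [hdeg] at h3
          exact degree_le_of_natDegree_le (Nat.le_of_lt_succ h3)
        have h3 := eq_X_add_C_of_degree_le_one h2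
        refine ⟨(g %ₘ (X ^ 2 - C (D : ℚ))).coeff 0, (g %ₘ (X ^ 2 - C (D : ℚ))).coeff 1, ?_⟩
        rw [h1]
        conv_lhs => rw [h3]
        rw [map_add, map_mul, AdjoinRoot.mk_C, AdjoinRoot.mk_C, AdjoinRoot.mk_X, add_comm]
        simp
    exact NJ_disc' hD hK

end Pool.Agent.CN
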